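import Pool.Agent.helper70.BND.SpecH

/-!
# Row CON: connectedness
-/

set_option autoImplicit false

open scoped Topology
open Finset

namespace Pool.Agent.BND.EX

/-- the contribution of the decorations to `fc` -/
noncomputable def CON_st (l : Lv) (J : ℕ) (v : ℕ) : ℕ := (D0 l J).count v + if v = 0 then 2 else 0

theorem CON_fc (l : Lv) (J : ℕ) (X : List ℕ) (v : ℕ) : fc l J X v = X.count v + CON_st l J v := by
  unfold fc CON_st
  rw [List.count_cons, List.count_append, List.count_append]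
  by_cases h : v = 0
  · subst h
    simp
    omega
  · have h1 : ¬ (0 = v) := fun e => h e.symm
    simp [h, h1]
    omega

theorem CON_st_le (l : Lv) (J v : ℕ) : CON_st l J v ≤ (D0 l J).length + 2 := by
  unfold CON_st
  have h := List.count_le_length (a := v) (l := D0 l J)
  split_ifs <;> omega

theorem CON_abs (A : LD) (j v : ℕ) (hj : j < A.k) (hv : v < A.n) : (A.c j v).natAbs ≤ A.cs := by
  unfold LD.cs
  have h1 : (A.c j v).natAbs ≤ ∑ v ∈ range A.n, (A.c j v).natAbs :=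
    Finset.single_le_sum (f := fun v => (A.c j v).natAbs) (fun _ _ => Nat.zero_le _)
      (Finset.mem_range.mpr hv)
  exact h1.trans (Finset.single_le_sum (f := fun j => ∑ v ∈ range A.n, (A.c j v).natAbs)
    (fun _ _ => Nat.zero_le _) (Finset.mem_range.mpr hj))

theorem CON_sum (A : LD) (v : ℕ) (hv : v < A.n) : ∑ j ∈ range A.k, (A.c j v).natAbs ≤ A.cs := by
  unfold LD.cs
  refine Finset.sum_le_sum fun j _ => ?_
  exact Finset.single_le_sum (f := fun v => (A.c j v).natAbs) (fun _ _ => Nat.zero_le _)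
      (Finset.mem_range.mpr hv)

theorem CON_near (A : LD) (κ₀ κ₁ : ℕ → ℕ) (N a : ℕ → ℤ) (L : ℕ)
    (hκ : ∀ v, v < A.n → 3 * A.cs + L + 4 ≤ κ₀ v ∧ 3 * A.cs + L + 4 ≤ κ₁ v)
    (hN : ∀ v, v < A.n → (κ₁ v : ℤ) - κ₀ v = ∑ j ∈ range A.k, N j * A.c j v)
    (h : ∃ r ∈ U, ∀ i, i < A.k → |(a i : ℝ) - r * N i| ≤ 2) :
    Nr A.n κ₀ κ₁ (2 * A.cs) (fun v => (κ₀ v : ℤ) + ∑ j ∈ range A.k, a j * A.c j v) ∧
    ∀ v, v < A.n → ((A.cs + L + 4 : ℕ) : ℤ) ≤ (κ₀ v : ℤ) + ∑ j ∈ range A.k, a j * A.c j v := by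
  obtain ⟨r, hr, hr'⟩ := h
  have key : ∀ v, v < A.n → |(((κ₀ v : ℤ) + ∑ j ∈ range A.k, a j * A.c j v : ℤ) : ℝ) -
      ((1 - r) * κ₀ v + r * κ₁ v)| ≤ ((2 * A.cs : ℕ) : ℝ) := by
    intro v hv
    have h1 : (((κ₁ v : ℤ) - κ₀ v : ℤ) : ℝ) = ((∑ j ∈ range A.k, N j * A.c j v : ℤ) : ℝ) := by
      rw [hN v hv]
    push_cast at h1
    have h2 : (((κ₀ v : ℤ) + ∑ j ∈ range A.k, a j * A.c j v : ℤ) : ℝ) -
        ((1 - r) * κ₀ v + r * κ₁ v) = ∑ j ∈ range A.k, ((a j : ℝ) - r * N j) * (A.c j v : ℝ) := by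
      have h3 : (κ₁ v : ℝ) = κ₀ v + ∑ j ∈ range A.k, (N j : ℝ) * (A.c j v : ℝ) := by linarith
      rw [h3]
      push_cast
      simp only [sub_mul, Finset.sum_sub_distrib]
      rw [mul_add, Finset.mul_sum]
      have h4 : ∑ i ∈ range A.k, r * ((N i : ℝ) * (A.c i v : ℝ)) =
          ∑ i ∈ range A.k, r * (N i : ℝ) * (A.c i v : ℝ) :=
        Finset.sum_congr rfl fun i _ => by ring
      rw [h4]
      ring
    rw [h2]
    refine (Finset.abs_sum_le_sum_abs _ _).trans ?_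
    have h5 : ∀ j ∈ range A.k, |((a j : ℝ) - r * N j) * (A.c j v : ℝ)| ≤ 2 * (((A.c j v).natAbs : ℕ) : ℝ) := by
      intro j hj
      rw [abs_mul]
      have h6 : |(A.c j v : ℝ)| = (((A.c j v).natAbs : ℕ) : ℝ) := by
        rw [Nat.cast_natAbs, Int.cast_abs]
      rw [h6]
      exact mul_le_mul_of_nonneg_right (hr' j (Finset.mem_range.mp hj)) (Nat.cast_nonneg _)
    refine (Finset.sum_le_sum h5).trans ?_
    rw [← Finset.mul_sum]
    have h7 : (∑ j ∈ range A.k, (((A.c j v).natAbs : ℕ) : ℝ)) ≤ (A.cs : ℝ) := by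
      exact_mod_cast CON_sum A v hv
    push_cast
    linarith
  refine ⟨⟨r, hr, key⟩, fun v hv => ?_⟩
  have h1 := (abs_le.mp (key v hv)).1
  obtain ⟨h2, h3⟩ := hκ v hv
  have hr0 : 0 ≤ r := hr.1
  have hr1 : r ≤ 1 := hr.2
  have h2' : ((3 * A.cs + L + 4 : ℕ) : ℝ) ≤ κ₀ v := by exact_mod_cast h2
  have h3' : ((3 * A.cs + L + 4 : ℕ) : ℝ) ≤ κ₁ v := by exact_mod_cast h3
  have h4 : ((3 * A.cs + L + 4 : ℕ) : ℝ) ≤ (1 - r) * κ₀ v + r * κ₁ v := by
    nlinarith [mul_le_mul_of_nonneg_left h2' (sub_nonneg.mpr hr1), mul_le_mul_of_nonneg_left h3' hr0]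
  have h5 : ((A.cs + L + 4 : ℕ) : ℝ) ≤ (((κ₀ v : ℤ) + ∑ j ∈ range A.k, a j * A.c j v : ℤ) : ℝ) := by
    push_cast at h1 h4 ⊢
    linarith
  exact_mod_cast h5

theorem CON_Nr (n : ℕ) (κ₀ κ₁ : ℕ → ℕ) (Cc : ℕ) (x y : ℕ → ℤ) (h : ∀ v, v < n → x v = y v)
    (hx : Nr n κ₀ κ₁ Cc x) : Nr n κ₀ κ₁ Cc y := by
  obtain ⟨r, hr, h1⟩ := hx
  refine ⟨r, hr, fun v hv => ?_⟩
  rw [← h v hv]
  exact h1 v hv

theorem CON (hFCM : FCM_stmt) (hFCS : FCS_stmt) (hLPA : LPA_stmt) (hWDC : WDC_stmt) (hPTR : PTR_stmt)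
    (hPSY : PSY_stmt) (hMKL : MKL_stmt) : CON_stmt := by
  intro A J κ₀ κ₁ Bb X₀ X₁ hA hX₀ hX₁ hBb hκ hN
  obtain ⟨N₁, hN₁⟩ := hN
  have hNe : ∃ N : ℕ → ℤ, (∀ j, A.k ≤ j → N j = 0) ∧
      ∀ v, v < A.n → (κ₁ v : ℤ) - κ₀ v = ∑ j ∈ range A.k, N j * A.c j v := by
    refine ⟨fun j => if j < A.k then N₁ j else 0, fun j hj => if_neg (not_lt.mpr hj), fun v hv => ?_⟩
    rw [hN₁ v hv]
    refine Finset.sum_congr rfl fun j hj => ?_
    beta_reduce
    rw [if_pos (Finset.mem_range.mp hj)]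
  obtain ⟨N, hN0, hN⟩ := hNe
  have hκ' : ∀ v, v < A.n → 3 * A.cs + (D0 A.l J).length + 4 ≤ κ₀ v ∧
      3 * A.cs + (D0 A.l J).length + 4 ≤ κ₁ v := fun v hv => ⟨(hκ v hv).2.2.1, (hκ v hv).2.2.2⟩
  have hT : ∀ X : List ℕ, (∀ x ∈ X, x < A.n) →
      (∀ v, v < A.n → (fc A.l J X v : ℤ) = κ₀ v + ∑ j ∈ range A.k, N j * A.c j v) →
      ∃ d, Pd A.l (Gd A.l J κ₀ κ₁ (2 * A.cs) Bb) (FX A.l J X₀) (FX A.l J X) d ∅ := by
    refine hLPA A.k N (fun a => ∀ X : List ℕ, (∀ x ∈ X, x < A.n) →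
      (∀ v, v < A.n → (fc A.l J X v : ℤ) = κ₀ v + ∑ j ∈ range A.k, a j * A.c j v) →
      ∃ d, Pd A.l (Gd A.l J κ₀ κ₁ (2 * A.cs) Bb) (FX A.l J X₀) (FX A.l J X) d ∅) hN0 ?_ ?_
    · intro X hX hc
      refine ⟨_, hFCM A J κ₀ κ₁ (2 * A.cs) Bb X₀ X hA hX₀ ?_ hBb ?_ ?_⟩
      · rintro rfl
        have h1 := (hκ 0 hA.n0).1
        have h2 := (hκ 0 hA.n0).2.2.1
        rw [CON_fc] at h1
        have h3 := CON_st_le A.l J 0
        simp at h1
        omega
      · refine ⟨0, ⟨le_rfl, zero_le_one⟩, fun v hv => ?_⟩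
        show |((fc A.l J X₀ v : ℤ) : ℝ) - ((1 - 0) * κ₀ v + 0 * κ₁ v)| ≤ ((2 * A.cs : ℤ) : ℝ)
        rw [(hκ v hv).1]
        simp
      · rw [List.perm_iff_count]
        intro v
        by_cases hv : v < A.n
        · have h1 := hc v hv
          have h2 := (hκ v hv).1
          simp only [zero_mul, Finset.sum_const_zero, add_zero] at h1
          rw [CON_fc] at h1 h2
          have h3 : X.count v + CON_st A.l J v = κ₀ v := by exact_mod_cast h1
          omega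
        · rw [List.count_eq_zero_of_not_mem fun h => hv (hX₀ v h),
            List.count_eq_zero_of_not_mem fun h => hv (hX v h)]
    · intro a j ε hj hε ha0 hTa hr hr' X' hX' hc'
      obtain ⟨hNr, hlow⟩ := CON_near A κ₀ κ₁ N a (D0 A.l J).length hκ' hN hr
      obtain ⟨hNr', hlow'⟩ := CON_near A κ₀ κ₁ N (fun i => a i + if i = j then ε else 0)
        (D0 A.l J).length hκ' hN hr'
      have hadd : ∀ v, ∑ i ∈ range A.k, (a i + if i = j then ε else 0) * A.c i v =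
          ∑ i ∈ range A.k, a i * A.c i v + ε * A.c j v := by
        intro v
        simp only [add_mul, Finset.sum_add_distrib, ite_mul, zero_mul]
        rw [Finset.sum_ite_eq' (range A.k) j (fun i => ε * A.c i v), if_pos (Finset.mem_range.mpr hj)]
      obtain ⟨hw1, hw2, -⟩ := hWDC A.n (fun v => (((κ₀ v : ℤ) + ∑ i ∈ range A.k, a i * A.c i v) -
        CON_st A.l J v).toNat)
      generalize hXdef : wd A.n (fun v => (((κ₀ v : ℤ) + ∑ i ∈ range A.k, a i * A.c i v) -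
        CON_st A.l J v).toNat) = X at hw1 hw2
      have hcX : ∀ v, v < A.n → (X.count v : ℤ) = ((κ₀ v : ℤ) + ∑ i ∈ range A.k, a i * A.c i v) -
          CON_st A.l J v := by
        intro v hv
        rw [hw1 v, if_pos hv, Int.toNat_of_nonneg]
        have h1 := hlow v hv
        have h2 := CON_st_le A.l J v
        push_cast at h1
        omega
      have hfX : ∀ v, v < A.n → (fc A.l J X v : ℤ) = κ₀ v + ∑ i ∈ range A.k, a i * A.c i v := by
        intro v hv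
        rw [CON_fc]
        push_cast
        rw [hcX v hv]
        ring
      have hcX' : ∀ v, v < A.n → (X'.count v : ℤ) = ((κ₀ v : ℤ) + ∑ i ∈ range A.k, a i * A.c i v +
          ε * A.c j v) - CON_st A.l J v := by
        intro v hv
        have h1 := hc' v hv
        rw [CON_fc, hadd] at h1
        push_cast at h1
        linarith
      obtain ⟨d, hd⟩ := hTa X hw2 hfX
      have hNX : Nr A.n κ₀ κ₁ (2 * A.cs) (fun v => (fc A.l J X v : ℤ)) :=
        CON_Nr A.n κ₀ κ₁ _ _ _ (fun v hv => (hfX v hv).symm) hNr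
      have hNX' : Nr A.n κ₀ κ₁ (2 * A.cs) (fun v => (fc A.l J X' v : ℤ)) :=
        CON_Nr A.n κ₀ κ₁ _ _ _ (fun v hv => (hc' v hv).symm) hNr'
      rcases hε with rfl | rfl
      · obtain ⟨d', hd'⟩ := hFCS A J κ₀ κ₁ (2 * A.cs) Bb X X' j hA hw2 hX' hj hBb hNX hNX'
          (fun v hv => by
            have h1 := hcX v hv
            have h2 := hlow v hv
            have h3 := CON_st_le A.l J v
            have h4 := CON_abs A j v hj hv
            push_cast at h2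
            omega)
          (fun v hv => by
            rw [hcX' v hv, hcX v hv]
            ring)
        have h5 := hPTR A.l _ _ _ _ _ _ _ _ hd hd'
        rw [Set.union_empty] at h5
        exact ⟨_, h5⟩
      · obtain ⟨d', hd'⟩ := hFCS A J κ₀ κ₁ (2 * A.cs) Bb X' X j hA hX' hw2 hj hBb hNX' hNX
          (fun v hv => by
            have h1 := hcX' v hv
            have h2 := hlow' v hv
            have h3 := CON_st_le A.l J v
            have h4 := CON_abs A j v hj hv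
            rw [hadd] at h2
            push_cast at h2
            omega)
          (fun v hv => by
            rw [hcX' v hv, hcX v hv]
            ring)
        have h5 := hPTR A.l _ _ _ _ _ _ _ _ hd (hPSY A.l _ _ _ _ _ hd')
        rw [Set.union_empty] at h5
        exact ⟨_, h5⟩
  refine hT X₁ hX₁ fun v hv => ?_
  rw [(hκ v hv).2.1, ← hN v hv]
  ring

end Pool.Agent.BND.EX
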